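import Pool.Agent.PFJ.Stmts

/-!
# PFJ squad, row CCI (the first shape is impossible)
-/

set_option autoImplicit false

open Matrix Filter Topology

namespace Pool.Agent.PFJ.H84

open Pool.Agent.PFS

/-- CCI -/
theorem cci (hBfa : BfaStmt) (hFmx : FmxStmt) (hPsi : PsiStmt) : CciStmt := by
  classical
  intro n C Γ hC K hK hmax L w β L' w' β' i a' hB hB' hF hF' hS hS' hdim hne hnear hsub i' ha'
    hline hpos
  have hP : PCone C := hC.toPCone
  have hwcl : ∀ m, w m ∈ closure C := fun m => hB.pes.1.cl m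
  obtain ⟨-, -, -, b4, -, -⟩ := hBfa n C Γ hP K L' w' β' hB'
  -- the vertex `e`
  set e : V n := w' i' with he
  have heL : e ∈ L' a' := by
    rw [ha']
    exact hB'.mem i'
  have helam : e ∈ LamC C Γ := hB'.pes.2 i'
  have hecl : e ∈ closure C := hC.hul.lamCl e helam
  have he0 : e ≠ 0 := hC.hul.lamNe e helam
  -- two other indices
  obtain ⟨l, hli⟩ : ∃ l : Fin K, l ≠ i := by
    by_contra hcon
    push Not at hcon
    have h1 : (Finset.univ : Finset (Fin K)) ⊆ {i} := by
      intro j _
      rw [Finset.mem_singleton]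
      exact hcon j
    have h2 := Finset.card_le_card h1
    rw [Finset.card_univ, Fintype.card_fin, Finset.card_singleton] at h2
    omega
  obtain ⟨j, hji, hjl⟩ : ∃ j : Fin K, j ≠ i ∧ j ≠ l := by
    by_contra hcon
    push Not at hcon
    have h1 : (Finset.univ : Finset (Fin K)) ⊆ {i, l} := by
      intro j _
      rw [Finset.mem_insert, Finset.mem_singleton]
      by_cases h : j = i
      · exact Or.inl h
      · exact Or.inr (hcon j h)
    have h2 := Finset.card_le_card h1
    rw [Finset.card_univ, Fintype.card_fin] at h2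
    have h3 := Finset.card_le_two (a := i) (b := l)
    omega
  obtain ⟨bl, hbl, hwl, -⟩ := hpos l hli
  obtain ⟨φ, hφC, hφcl, hφ0, hφl⟩ := H60.fun_ n C hP (Fin K) w l hB.pes.1
  obtain ⟨ψ, hψcl, hψb, hψ0⟩ := hPsi n C Γ hP K L' w' β' hB' bl φ (fun x _ hx => hφcl x hx)
  obtain ⟨χ, hχ⟩ := SeparatingDual.exists_eq_one (R := ℝ) he0
  have hχcl : ∀ x ∈ L' a', x ∈ closure C → 0 ≤ (χ : V n →ₗ[ℝ] ℝ) x := by
    intro x hx hxcl
    obtain ⟨c, hc⟩ := hline x hx
    have h1 : (χ : V n →ₗ[ℝ] ℝ) x = c := by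
      rw [hc, map_smul]
      change c * χ e = c
      rw [hχ, mul_one]
    rw [h1]
    by_contra hcon
    push Not at hcon
    have h2 : (-c)⁻¹ • x = -e := by
      rw [hc, smul_smul]
      have h3 : (-c)⁻¹ * c = -1 := by
        have : c ≠ 0 := hcon.ne
        field_simp
      rw [h3, neg_one_smul]
    have h3 : -e ∈ closure C := by
      rw [← h2]
      exact hP.cl_smul hxcl (inv_nonneg.2 (by linarith))
    exact he0 (hP.salient e hecl h3)
  obtain ⟨ρ, hρcl, hρa, hρ0⟩ := hPsi n C Γ hP K L' w' β' hB' a' (χ : V n →ₗ[ℝ] ℝ) hχcl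
  have hρe : ρ e = 1 := by
    rw [hρa e heL]
    exact hχ
  have hρw : ∀ m, m ≠ i → ρ (w m) = 0 := by
    intro m hm
    obtain ⟨b, hb, hwb, -⟩ := hpos m hm
    exact hρ0 b hb _ hwb
  -- `κ > 0`
  have hκ : 0 < ρ (w i) := by
    obtain ⟨M, hM, h1⟩ := hP.absorb hB.pes.1.sum_mem e
    have h2 := hρcl _ (subset_closure h1)
    rw [map_sub, map_smul, map_sum, Finset.sum_eq_single i, hρe, smul_eq_mul] at h2
    · by_contra hcon
      push Not at hcon
      nlinarith
    · intro m _ hm
      exact hρw m hm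
    · intro h
      exact absurd (Finset.mem_univ _) h
  have hφe0 : 0 ≤ φ e := hφcl e hecl
  -- the main inequality
  have key : ∀ M : ℝ, 1 < M → ρ (w i) * φ e ≤ 2 * (M - 1) * φ (w l) := by
    intro M hM
    obtain ⟨N, q, hqW, h1, h2⟩ := (hnear j hji M hM).exists
    set u : Fin K → ℤ := fun l => if l = i then 0 else if l = j then (N : ℤ) else 1 with hu
    have hui : u i = 0 := by rw [hu]; simp
    have hul : u l = 1 := by
      rw [hu]
      simp only
      rw [if_neg hli, if_neg (Ne.symm hjl)]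
    have hqcl : q ∈ closure C := by
      have h3 := hP.mem_of_le (hB.pes.1.pt_mem u) h1
      exact subset_closure h3
    obtain ⟨y, hyL, hyq⟩ := b4 q hqW
    have hycl : ∀ a, y a ∈ closure C := hB'.comp y hyL (by rw [hyq]; exact hqcl)
    obtain ⟨c, hc⟩ := hline (y a') (hyL a')
    have hcρ : ρ q = c := by
      rw [← hyq, map_sum, Finset.sum_eq_single a']
      · rw [hc, map_smul, hρe, smul_eq_mul, mul_one]
      · intro b _ hb
        exact hρ0 b hb _ (hyL b)
      · intro h
        exact absurd (Finset.mem_univ _) h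
    have hpρ : ρ (pt w u) = ρ (w i) := by
      rw [pt, map_sum, Finset.sum_eq_single i]
      · rw [map_smul, hui, zpow_zero, one_smul]
      · intro m _ hm
        rw [map_smul, hρw m hm, smul_zero]
      · intro h
        exact absurd (Finset.mem_univ _) h
    have h3 : ρ (w i) ≤ c := by
      have h4 := hρcl _ h1
      rw [map_sub, hcρ, hpρ] at h4
      linarith
    have hψq : ψ q = φ (y bl) := by
      rw [← hyq, map_sum, Finset.sum_eq_single bl]
      · exact hψb _ (hyL bl)
      · intro b _ hb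
        exact hψ0 b hb _ (hyL b)
      · intro h
        exact absurd (Finset.mem_univ _) h
    have hψp : 2 * φ (w l) ≤ ψ (pt w u) := by
      have h5 : ψ ((2 : ℝ) ^ u l • w l) = 2 * φ (w l) := by
        rw [map_smul, hul, zpow_one, smul_eq_mul, hψb _ hwl]
      rw [← h5, pt, map_sum]
      have h6 : ∀ m ∈ (Finset.univ : Finset (Fin K)), 0 ≤ ψ ((2 : ℝ) ^ u m • w m) := by
        intro m _
        rw [map_smul, smul_eq_mul]
        exact mul_nonneg (by positivity) (hψcl _ (hwcl m))
      exact Finset.single_le_sum (f := fun m => ψ ((2 : ℝ) ^ u m • w m)) h6 (Finset.mem_univ l)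
    have h4 : 2 * φ (w l) ≤ φ (y bl) := by
      have h5 := hψcl _ h1
      rw [map_sub, hψq] at h5
      linarith
    have h5 : φ (y bl) + c * φ e ≤ φ q := by
      have h6 : φ q = ∑ b, φ (y b) := by rw [← hyq, map_sum]
      have h7 : φ (y a') = c * φ e := by rw [hc, map_smul, smul_eq_mul]
      rw [h6, ← h7, ← Finset.add_sum_erase _ _ (Finset.mem_univ bl)]
      have h8 : a' ∈ Finset.univ.erase bl := Finset.mem_erase.2 ⟨hbl.symm, Finset.mem_univ _⟩
      have h9 : φ (y a') ≤ ∑ b ∈ Finset.univ.erase bl, φ (y b) :=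
        Finset.single_le_sum (f := fun b => φ (y b)) (fun b _ => hφcl _ (hycl b)) h8
      linarith
    have h6 : φ q ≤ M * (2 * φ (w l)) := by
      have h7 := hφcl _ h2
      have h8 : φ (pt w u) = 2 * φ (w l) := by
        rw [pt, map_sum, Finset.sum_eq_single l]
        · rw [map_smul, hul, zpow_one, smul_eq_mul]
        · intro m _ hm
          rw [map_smul, hφ0 m hm, smul_zero]
        · intro h
          exact absurd (Finset.mem_univ _) h
      rw [map_sub, map_smul, smul_eq_mul, h8] at h7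
      linarith
    have h7 : ρ (w i) * φ e ≤ c * φ e := mul_le_mul_of_nonneg_right h3 hφe0
    linarith
  have hφe : φ e = 0 := by
    by_contra hcon
    have hpos' : 0 < φ e := lt_of_le_of_ne hφe0 (Ne.symm hcon)
    have hpp : 0 < ρ (w i) * φ e := mul_pos hκ hpos'
    have h1 := key (1 + ρ (w i) * φ e / (4 * φ (w l))) (by
      have : 0 < ρ (w i) * φ e / (4 * φ (w l)) := by positivity
      linarith)
    have h2 : 2 * (1 + ρ (w i) * φ e / (4 * φ (w l)) - 1) * φ (w l) = ρ (w i) * φ e / 2 := by
      field_simp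
      ring
    rw [h2] at h1
    linarith
  -- the facet opposite to `l`
  set S : V n := ∑ m ∈ Finset.univ.erase l, w m with hSdef
  have hSφ : φ S = 0 := by
    rw [hSdef, map_sum]
    exact Finset.sum_eq_zero fun m hm => hφ0 m (Finset.ne_of_mem_erase hm)
  have hSe : S + e ∉ C := by
    intro h
    have h1 := hφC _ h
    rw [map_add, hSφ, hφe, add_zero] at h1
    exact lt_irrefl _ h1
  have hSC : S ∉ C := by
    intro h
    have h1 := hφC _ h
    rw [hSφ] at h1
    exact lt_irrefl _ h1
  have hScl : S ∈ closure C := hP.cl_sum fun m _ => hwcl m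
  have hSW : S ∈ ⨆ a, L a :=
    Submodule.sum_mem _ fun m _ => Submodule.mem_iSup_of_mem (β m) (hB.mem m)
  obtain ⟨M, hM, hMe⟩ := hFmx n C Γ hC K hK hmax w l e hB.pes helam hSe
  have hface : S + e ∈ Face C S := by
    refine ⟨(1 + M)⁻¹, by positivity, ?_, ?_⟩
    · have h1 : S - (1 + M)⁻¹ • (S + e) = (1 + M)⁻¹ • (M • S - e) := by
        have h2 : S = ((1 + M)⁻¹ * (1 + M)) • S := by
          rw [inv_mul_cancel₀ (by positivity), one_smul]
        have h3 : (1 + M)⁻¹ • (M • S - e) = ((1 + M)⁻¹ * (1 + M)) • S - (1 + M)⁻¹ • (S + e) := by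
          module
        rw [h3, ← h2]
      rw [h1]
      exact hP.cl_smul hMe (by positivity)
    · have h1 : S + e - (1 + M)⁻¹ • S = (1 - (1 + M)⁻¹) • S + e := by module
      rw [h1]
      have h2 : (1 + M)⁻¹ ≤ 1 := inv_le_one_of_one_le₀ (by linarith)
      exact hP.cl_add (hP.cl_smul hScl (by linarith)) hecl
  have heW : e ∈ ⨆ a, L a := by
    have h1 := hF S hSW hScl hSC _ hface
    have h2 := Submodule.sub_mem _ h1 hSW
    rwa [add_sub_cancel_left] at h2
  -- conclusion
  have hle : (⨆ a, L' a) ≤ ⨆ a, L a := by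
    refine iSup_le fun b => ?_
    by_cases hb : b = a'
    · rw [hb]
      intro x hx
      obtain ⟨c, hc⟩ := hline x hx
      rw [hc]
      exact Submodule.smul_mem _ c heW
    · exact hsub b hb
  exact hne (Submodule.eq_of_le_of_finrank_eq hle hdim).symm

end Pool.Agent.PFJ.H84
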