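import Pool.Agent.PFJ.Stmts

/-!
# PFJ squad, row CLF (limits of translates)
-/

set_option autoImplicit false

open Matrix Filter Topology

namespace Pool.Agent.PFJ.H84

open Pool.Agent.PFS

/-- the tuples of vectors of a common translate -/
def TrS {n : ℕ} (Γ : Subgroup (GL (Fin n) ℝ)) (W₀ : Submodule ℝ (V n)) (d : ℕ) :
    Set (Fin d → V n) :=
  {x : Fin d → V n | ∃ g ∈ Γ, ∀ i, x i ∈ img g W₀}

theorem trS_act {n : ℕ} {Γ : Subgroup (GL (Fin n) ℝ)} {W₀ : Submodule ℝ (V n)} {d : ℕ}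
    {h : GL (Fin n) ℝ} (hh : h ∈ Γ) {x : Fin d → V n} (hx : x ∈ closure (TrS Γ W₀ d)) :
    (fun i => act h (x i)) ∈ closure (TrS Γ W₀ d) := by
  have hcont : Continuous (fun x : Fin d → V n => fun i => act h (x i)) :=
    continuous_pi fun i => (CC.act_continuous h).comp (continuous_apply i)
  refine map_mem_closure hcont hx ?_
  rintro y ⟨g, hg, hy⟩
  refine ⟨h * g, Γ.mul_mem hh hg, fun i => ?_⟩
  obtain ⟨z, hz, hzy⟩ := mem_img.1 (hy i)
  refine mem_img.2 ⟨z, hz, ?_⟩
  rw [CC.act_mul, hzy]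

theorem trS_comb {n : ℕ} {Γ : Subgroup (GL (Fin n) ℝ)} {W₀ : Submodule ℝ (V n)} {d : ℕ}
    (A : Fin d → Fin d → ℝ) {x : Fin d → V n} (hx : x ∈ closure (TrS Γ W₀ d)) :
    (fun i => ∑ j, A i j • x j) ∈ closure (TrS Γ W₀ d) := by
  have hcont : Continuous (fun x : Fin d → V n => fun i => ∑ j, A i j • x j) := by
    refine continuous_pi fun i => continuous_finsetSum _ fun j _ => ?_
    exact (continuous_apply j).const_smul (A i j)
  refine map_mem_closure hcont hx ?_
  rintro y ⟨g, hg, hy⟩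
  refine ⟨g, hg, fun i => ?_⟩
  exact Submodule.sum_mem _ fun j _ => Submodule.smul_mem _ _ (hy j)

/-- a basis of a subspace, as a family of vectors -/
theorem exists_basis {n : ℕ} (W : Submodule ℝ (V n)) {d : ℕ} (hd : Module.finrank ℝ W = d) :
    ∃ e : Fin d → V n, LinearIndependent ℝ e ∧ Submodule.span ℝ (Set.range e) = W ∧
      ∀ i, e i ∈ W := by
  let b := Module.finBasisOfFinrankEq ℝ W hd
  refine ⟨fun i => (b i : V n), ?_, ?_, fun i => (b i).2⟩
  · exact b.linearIndependent.map' W.subtype (Submodule.ker_subtype W)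
  · have h1 : Set.range (fun i => (b i : V n)) = W.subtype '' (Set.range b) := by
      rw [← Set.range_comp]
      rfl
    rw [h1, Submodule.span_image, b.span_eq, Submodule.map_top, Submodule.range_subtype]

/-- CLF -/
theorem clf : ClfStmt := by
  classical
  intro n C Γ hC W₀ hW₀ hfull
  refine ⟨⟨?_, ?_, ?_⟩, ?_⟩
  · rintro W ⟨h1, h2⟩
    exact hfull W h1 h2
  · rintro W ⟨⟨e, he1, he2, he3⟩, ⟨x, hxW, hxC⟩⟩ g hg
    refine ⟨⟨fun i => act g (e i), ?_, ?_, trS_act hg he3⟩, ⟨act g x, ?_, hC.mem g hg x hxC⟩⟩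
    · have hker : LinearMap.ker (Matrix.mulVecLin (g : Matrix (Fin n) (Fin n) ℝ)) = ⊥ := by
        rw [LinearMap.ker_eq_bot]
        exact CC.act_injective g
      exact he1.map' (Matrix.mulVecLin (g : Matrix (Fin n) (Fin n) ℝ)) hker
    · have h1 : Set.range (fun i => act g (e i))
          = (Matrix.mulVecLin (g : Matrix (Fin n) (Fin n) ℝ)) '' (Set.range e) := by
        rw [← Set.range_comp]
        rfl
      rw [h1, Submodule.span_image, he2]
      rfl
    · exact mem_img.2 ⟨x, hxW, rfl⟩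
  · intro W W' hW hlim hfin hx
    have hfr : ∀ m, Module.finrank ℝ (W m) = Module.finrank ℝ W₀ := by
      intro m
      obtain ⟨⟨e, he1, he2, -⟩, -⟩ := hW m
      have h := finrank_span_eq_card he1
      rw [he2, Fintype.card_fin] at h
      exact h
    obtain ⟨e', he1, he2, he3⟩ := exists_basis W' ((hfin 0).symm.trans (hfr 0))
    refine ⟨⟨e', he1, he2, ?_⟩, hx⟩
    choose y hyW hylim using fun i => hlim.1 (e' i) (he3 i)
    have ht : Tendsto (fun m => fun i => y i m) atTop (𝓝 e') :=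
      tendsto_pi_nhds.2 fun i => hylim i
    refine isClosed_closure.mem_of_tendsto ht (Eventually.of_forall fun m => ?_)
    obtain ⟨⟨e, hem1, hem2, hem3⟩, -⟩ := hW m
    have h1 : ∀ i, ∃ c : Fin (Module.finrank ℝ W₀) → ℝ, ∑ j, c j • e j = y i m := by
      intro i
      have h2 : y i m ∈ Submodule.span ℝ (Set.range e) := by
        rw [hem2]
        exact hyW i m
      exact (Submodule.mem_span_range_iff_exists_fun ℝ).1 h2
    choose A hA using h1
    have h3 : (fun i => y i m) = fun i => ∑ j, A i j • e j := by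
      funext i
      exact (hA i).symm
    rw [h3]
    exact trS_comb A hem3
  · obtain ⟨e, he1, he2, he3⟩ := exists_basis W₀ rfl
    refine ⟨e, he1, he2, subset_closure ⟨1, Γ.one_mem, fun i => ?_⟩⟩
    exact mem_img.2 ⟨e i, he3 i, CC.act_one _⟩

end Pool.Agent.PFJ.H84
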