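import Pool.Agent.PFJ.Stmts

/-!
# PFJ squad, row SH2 (counting)
-/

set_option autoImplicit false

open Matrix Filter Topology

namespace Pool.Agent.PFJ.H84

open Pool.Agent.PFS

/-- SH2 -/
theorem sh2 : Sh2Stmt := by
  classical
  intro K i b β' hle
  set c : Fin K → ℕ := fun a => (Finset.univ.filter (fun j => j ≠ i ∧ b j = a)).card with hc
  set d : Fin K → ℕ := fun a => (Finset.univ.filter (fun j => β' j = a)).card with hd
  have hcd : ∀ a, c a ≤ d a := hle
  have h1 : ∑ a, d a = K := by
    have h := Finset.card_eq_sum_card_fiberwise (s := (Finset.univ : Finset (Fin K)))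
      (t := Finset.univ) (f := β') (fun x _ => Finset.mem_univ _)
    rw [Finset.card_univ, Fintype.card_fin] at h
    exact h.symm
  have h2 : ∑ a, c a + 1 = K := by
    have h := Finset.card_eq_sum_card_fiberwise (s := (Finset.univ : Finset (Fin K)).erase i)
      (t := Finset.univ) (f := b) (fun x _ => Finset.mem_univ _)
    rw [Finset.card_erase_of_mem (Finset.mem_univ i), Finset.card_univ, Fintype.card_fin] at h
    have h3 : ∀ a, ((Finset.univ.erase i).filter (fun j => b j = a)).card = c a := by
      intro a
      rw [hc]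
      simp only
      congr 1
      ext j
      simp only [Finset.mem_filter, Finset.mem_erase, Finset.mem_univ, and_true, true_and]
    have h4 : ∑ a, ((Finset.univ.erase i).filter (fun j => b j = a)).card = ∑ a, c a :=
      Finset.sum_congr rfl (fun a _ => h3 a)
    have h5 : K - 1 = ∑ a, c a := h.trans h4
    have hK : 0 < K := i.pos
    omega
  -- the differences
  have h4 : ∑ a, (d a - c a) = 1 := by
    have h5 : ∑ a, (d a - c a) + ∑ a, c a = ∑ a, d a := by
      rw [← Finset.sum_add_distrib]
      exact Finset.sum_congr rfl fun a _ => Nat.sub_add_cancel (hcd a)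
    omega
  obtain ⟨a', ha'⟩ : ∃ a', d a' - c a' ≠ 0 := by
    by_contra hcon
    push Not at hcon
    rw [Finset.sum_congr rfl (fun a _ => hcon a), Finset.sum_const_zero] at h4
    exact absurd h4 (by norm_num)
  have h5 : (d a' - c a') + ∑ a ∈ Finset.univ.erase a', (d a - c a) = 1 := by
    rw [Finset.add_sum_erase Finset.univ (fun a => d a - c a) (Finset.mem_univ a')]
    exact h4
  have h6 : ∑ a ∈ Finset.univ.erase a', (d a - c a) = 0 := by omega
  refine ⟨a', ?_, ?_⟩
  · have := hcd a'
    change c a' + 1 = d a'
    omega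
  · intro a ha
    have h7 := (Finset.sum_eq_zero_iff.1 h6) a (Finset.mem_erase.2 ⟨ha, Finset.mem_univ a⟩)
    have := hcd a
    change c a = d a
    omega

end Pool.Agent.PFJ.H84
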